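import Pool.Agent.Q286.IX.Stm2

set_option autoImplicit false

/-!
# IX-PEN: holomorphy and the pencil (job 33336 for project IX of helper286)

`AtMost x0 ω k` is translated into a bound for the number of orbits of bad points under `s ↦ 2 x0 - conj s`.
-/

namespace Pool.Agent.Q166.IX

open Pool.Agent.Q286.IX

/-- the reflection -/
noncomputable def tau (x0 : ℝ) (s : ℂ) : ℂ := 2 * x0 - (starRingEnd ℂ) s

theorem tau_tau (x0 : ℝ) (s : ℂ) : tau x0 (tau x0 s) = s := by
  unfold tau
  have h2 : (starRingEnd ℂ) (2 : ℂ) = 2 := by
    rw [show (2 : ℂ) = ((2 : ℝ) : ℂ) by norm_num, Complex.conj_ofReal]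
  rw [map_sub, map_mul, h2, Complex.conj_ofReal, Complex.conj_conj]
  ring

theorem tau_re (x0 : ℝ) (s : ℂ) : (tau x0 s).re = 2 * x0 - s.re := by
  unfold tau
  simp

/-- orbits -/
def St (x0 : ℝ) : Setoid ℂ where
  r s t := s = t ∨ s = tau x0 t
  iseqv := {
    refl := fun s => Or.inl rfl
    symm := by
      rintro s t (h | h)
      · exact Or.inl h.symm
      · right; rw [h, tau_tau]
    trans := by
      rintro s t u (h | h) (h' | h')
      · left; rw [h, h']
      · right; rw [h, h']
      · right; rw [h, h']
      · left; rw [h, h', tau_tau] }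

/-- bad points -/
def bad (x0 : ℝ) (ω : ℂ → ℤ) (s : ℂ) : Prop := ω s < 0 ∨ (0 < ω s ∧ s.re ≠ x0)

/-- orbits of bad points -/
def B (x0 : ℝ) (ω : ℂ → ℤ) : Set (Quotient (St x0)) := (fun s => (Quotient.mk (St x0) s)) '' {s | bad x0 ω s}

theorem mk_eq {x0 : ℝ} {s t : ℂ} : (Quotient.mk (St x0) s = Quotient.mk (St x0) t) ↔ (s = t ∨ s = tau x0 t) := by
  constructor
  · intro h; exact Quotient.exact h
  · intro h; exact Quotient.sound h

theorem bad_tau {x0 : ℝ} {ω : ℂ → ℤ} (hω : ∀ s, ω (tau x0 s) = ω s) {s : ℂ} : bad x0 ω (tau x0 s) ↔ bad x0 ω s := by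
  unfold bad
  rw [hω, tau_re]
  constructor
  · rintro (h | ⟨h, h'⟩)
    · exact Or.inl h
    · exact Or.inr ⟨h, fun hh => h' (by rw [hh]; ring)⟩
  · rintro (h | ⟨h, h'⟩)
    · exact Or.inl h
    · exact Or.inr ⟨h, fun hh => h' (by linarith)⟩

theorem mem_B {x0 : ℝ} {ω : ℂ → ℤ} (hω : ∀ s, ω (tau x0 s) = ω s) {s : ℂ} : Quotient.mk (St x0) s ∈ B x0 ω ↔ bad x0 ω s := by
  constructor
  · rintro ⟨t, ht, h⟩
    rcases mk_eq.1 h with h | h
    · rw [← h]; exact ht
    · have ht' : bad x0 ω t := ht
      rw [h, bad_tau hω] at ht'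
      exact ht'
  · intro h; exact ⟨s, h, rfl⟩

theorem atMost_iff (x0 : ℝ) (ω : ℂ → ℤ) (k : ℕ) : AtMost x0 ω k ↔ (B x0 ω).encard ≤ k := by
  constructor
  · intro h
    by_contra hc
    have h1 : ((k + 1 : ℕ) : ℕ∞) ≤ (B x0 ω).encard := by
      have := Order.add_one_le_of_lt (not_le.1 hc)
      exact_mod_cast this
    obtain ⟨t, ht, hte⟩ := Set.exists_subset_encard_eq h1
    have hfin : t.Finite := Set.finite_of_encard_eq_coe hte
    have hcard : hfin.toFinset.card = k + 1 := by
      have := hfin.encard_eq_coe_toFinset_card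
      rw [hte] at this
      exact_mod_cast this.symm
    let e := hfin.toFinset.equivFinOfCardEq hcard
    have hsel : ∀ j : Fin (k + 1), ∃ s : ℂ, bad x0 ω s ∧ Quotient.mk (St x0) s = (e.symm j : Quotient (St x0)) := by
      intro j
      have hj : ((e.symm j : hfin.toFinset) : Quotient (St x0)) ∈ t := by
        have := (e.symm j).2
        rwa [Set.Finite.mem_toFinset] at this
      obtain ⟨s, hs, hse⟩ := ht hj
      exact ⟨s, hs, hse⟩
    choose p hp hpe using hsel
    obtain ⟨i, j, hij, h2⟩ := h p hp
    have h3 : Quotient.mk (St x0) (p i) = Quotient.mk (St x0) (p j) := mk_eq.2 h2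
    rw [hpe, hpe] at h3
    exact hij (e.symm.injective (Subtype.ext h3))
  · intro h p hp
    by_contra hc
    push Not at hc
    have hinj : Function.Injective (fun j : Fin (k + 1) => Quotient.mk (St x0) (p j)) := by
      intro i j hij
      by_contra hne
      have h1 := hc i j hne
      rcases mk_eq.1 hij with h2 | h2
      · exact h1.1 h2
      · exact h1.2 h2
    have hr : Set.range (fun j : Fin (k + 1) => Quotient.mk (St x0) (p j)) ⊆ B x0 ω := by
      rintro _ ⟨j, rfl⟩
      exact ⟨p j, hp j, rfl⟩
    have h1 : (Set.range (fun j : Fin (k + 1) => Quotient.mk (St x0) (p j))).encard = (k + 1 : ℕ) := by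
      rw [← Set.image_univ, hinj.encard_image, Set.encard_univ]
      simp
    have h2 := Set.encard_le_encard hr
    rw [h1] at h2
    have h3 := h2.trans h
    have h4 : k + 1 ≤ k := by exact_mod_cast h3
    omega

theorem exactly_iff (x0 : ℝ) (ω : ℂ → ℤ) (k : ℕ) : Exactly x0 ω k ↔ (B x0 ω).encard = k := by
  unfold Exactly
  simp only [atMost_iff]
  constructor
  · rintro ⟨h1, h2⟩
    have hfin : (B x0 ω).Finite := Set.finite_of_encard_le_coe h1
    have h3 := hfin.encard_eq_coe_toFinset_card
    rw [h3] at h1 ⊢
    have h4 := h2 hfin.toFinset.card (by rw [h3])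
    have h5 : hfin.toFinset.card ≤ k := by exact_mod_cast h1
    have h6 : hfin.toFinset.card = k := le_antisymm h5 h4
    exact_mod_cast h6
  · intro h
    rw [h]
    exact ⟨le_refl _, fun j hj => by exact_mod_cast hj⟩

theorem pen : S_Pen := by
  intro x0 m1 m2 hm1 hm2 n hn
  have hm1' : ∀ s, m1 (tau x0 s) = m1 s := hm1
  have hm2' : ∀ s, m2 (tau x0 s) = m2 s := hm2
  have hω : ∀ p q : ℕ, ∀ s, (fun s => (q : ℤ) * m1 s - p * m2 s) (tau x0 s) = (fun s => (q : ℤ) * m1 s - p * m2 s) s := by
    intro p q s
    simp only [hm1', hm2']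
  have hω1 : ∀ s, (fun s => (m1 s : ℤ)) (tau x0 s) = (fun s => (m1 s : ℤ)) s := by
    intro s
    simp only [hm1']
  rw [exactly_iff] at hn
  have hfin : (B x0 (fun s => (m1 s : ℤ))).Finite := Set.finite_of_encard_eq_coe hn
  constructor
  · intro hle p q hp hpq
    rw [exactly_iff, ← hn]
    congr 1
    ext Q
    induction Q using Quotient.inductionOn with
    | h s =>
      rw [mem_B (hω p q), mem_B hω1]
      unfold bad
      have h1 := hle s
      have h2 : (0 : ℤ) ≤ m1 s := by positivity
      have h3 : ((q : ℤ) - p) * m1 s ≤ (q : ℤ) * m1 s - p * m2 s := by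
        have : (p : ℤ) * m2 s ≤ p * m1 s := by
          apply mul_le_mul_of_nonneg_left (by exact_mod_cast h1) (by positivity)
        linarith
      have hqp : (1 : ℤ) ≤ (q : ℤ) - p := by
        have : (p : ℤ) + 1 ≤ q := by exact_mod_cast hpq
        linarith
      have h4 : (m1 s : ℤ) ≤ (q : ℤ) * m1 s - p * m2 s := by nlinarith
      constructor
      · rintro (h | ⟨h, h'⟩)
        · exfalso; linarith
        · right
          refine ⟨?_, h'⟩
          rcases Nat.eq_zero_or_pos (m1 s) with h0 | h0
          · exfalso
            have h5 : m2 s = 0 := by omega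
            simp [h0, h5] at h
          · show (0 : ℤ) < (m1 s : ℤ)
            exact_mod_cast h0
      · rintro (h | ⟨h, h'⟩)
        · exfalso; linarith
        · right
          refine ⟨?_, h'⟩
          simp only
          linarith
  · intro hall
    by_contra hex
    push Not at hex
    obtain ⟨s0, hs0⟩ := hex
    -- case (a)
    have keyA : ∀ s, (s.re = x0 ∨ m1 s = 0) → m2 s ≤ m1 s := by
      intro s hs
      by_contra hlt
      push Not at hlt
      -- a bound for m1 on bad points
      have hbd : ∃ P : ℕ, ∀ t, bad x0 (fun s => (m1 s : ℤ)) t → m1 t < P := by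
        have hm1q : ∀ a b : ℂ, (St x0).r a b → m1 a = m1 b := by
          rintro a b (h | h)
          · rw [h]
          · rw [h, hm1']
        let M : Quotient (St x0) → ℕ := Quotient.lift m1 hm1q
        obtain ⟨P, hP⟩ := (hfin.image M).bddAbove
        refine ⟨P + 1, fun t ht => ?_⟩
        have : M (Quotient.mk (St x0) t) ≤ P := hP ⟨_, (mem_B hω1).2 ht, rfl⟩
        exact Nat.lt_succ_of_le this
      obtain ⟨P, hP⟩ := hbd
      set p := P + m1 s + 1 with hp
      have h1 := hall p (p + 1) (by omega) (by omega)
      rw [exactly_iff] at h1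
      have hsub : insert (Quotient.mk (St x0) s) (B x0 (fun s => (m1 s : ℤ))) ⊆ B x0 (fun s => ((p + 1 : ℕ) : ℤ) * m1 s - p * m2 s) := by
        intro Q hQ
        rcases hQ with hQ | hQ
        · rw [hQ, mem_B (hω p (p + 1))]
          left
          have h2 : (m1 s : ℤ) + 1 ≤ m2 s := by exact_mod_cast hlt
          have h3 : (m1 s : ℤ) < p := by rw [hp]; push_cast; have : (0:ℤ) ≤ P := by positivity
                                         linarith
          have h4 : (p : ℤ) * (m1 s + 1) ≤ p * m2 s := mul_le_mul_of_nonneg_left h2 (by positivity)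
          show ((p + 1 : ℕ) : ℤ) * m1 s - p * m2 s < 0
          push_cast
          push_cast at h4
          linarith
        · induction Q using Quotient.inductionOn with
          | h t =>
            rw [mem_B hω1] at hQ
            rw [mem_B (hω p (p + 1))]
            have h2 := hP t hQ
            have h3 : 0 < m1 t ∧ t.re ≠ x0 := by
              rcases hQ with h | ⟨h, h'⟩
              · exfalso
                have : (0 : ℤ) ≤ m1 t := by positivity
                simp only at h
                linarith
              · have h9 : (0 : ℤ) < (m1 t : ℤ) := h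
                exact ⟨by exact_mod_cast h9, h'⟩
            have h4 : ((p + 1 : ℕ) : ℤ) * m1 t - p * m2 t ≠ 0 := by
              intro h0
              have h5 : (p + 1) * m1 t = p * m2 t := by
                have : ((p + 1 : ℕ) : ℤ) * m1 t = p * m2 t := by linarith
                exact_mod_cast this
              have h6 : p ∣ m1 t := by
                have h7 : p ∣ (p + 1) * m1 t := ⟨m2 t, h5⟩
                have h8 : Nat.Coprime p (p + 1) := by simp
                exact h8.dvd_of_dvd_mul_left h7
              have h9 := Nat.le_of_dvd h3.1 h6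
              omega
            rcases lt_or_gt_of_ne h4 with h | h
            · left; exact h
            · right; exact ⟨h, h3.2⟩
      have hnot : Quotient.mk (St x0) s ∉ B x0 (fun s => (m1 s : ℤ)) := by
        rw [mem_B hω1]
        rintro (h | ⟨h, h'⟩)
        · have : (0 : ℤ) ≤ m1 s := by positivity
          simp only at h
          linarith
        · rcases hs with hs | hs
          · exact h' hs
          · simp only [hs] at h
            simp at h
      have h5 := Set.encard_le_encard hsub
      rw [Set.encard_insert_of_notMem hnot, hn, h1] at h5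
      have h6 : n + 1 ≤ n := by exact_mod_cast h5
      omega
    -- case (b)
    have hs1 : ¬ (s0.re = x0 ∨ m1 s0 = 0) := fun h => absurd (keyA s0 h) (by omega)
    push Not at hs1
    have h1 := hall (m1 s0) (m2 s0) (by omega) hs0
    rw [exactly_iff] at h1
    have hsub : B x0 (fun s => ((m2 s0 : ℕ) : ℤ) * m1 s - (m1 s0 : ℕ) * m2 s) ⊆ B x0 (fun s => (m1 s : ℤ)) \ {Quotient.mk (St x0) s0} := by
      intro Q hQ
      induction Q using Quotient.inductionOn with
      | h t =>
        rw [mem_B (hω (m1 s0) (m2 s0))] at hQ
        constructor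
        · rw [mem_B hω1]
          by_cases ht : t.re = x0 ∨ m1 t = 0
          · exfalso
            have h2 := keyA t ht
            have h3 : (m1 s0 : ℤ) * m2 t ≤ m1 s0 * m1 t := mul_le_mul_of_nonneg_left (by exact_mod_cast h2) (by positivity)
            have h4 : (m1 s0 : ℤ) * m1 t ≤ m2 s0 * m1 t := mul_le_mul_of_nonneg_right (by exact_mod_cast hs0.le) (by positivity)
            rcases hQ with h | ⟨h, h'⟩
            · simp only at h
              linarith
            · rcases ht with ht | ht
              · exact h' ht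
              · simp only [ht] at h
                have : (0 : ℤ) ≤ (m1 s0 : ℤ) * m2 t := by positivity
                simp at h
                linarith
          · push Not at ht
            right
            refine ⟨?_, ht.1⟩
            have := Nat.pos_of_ne_zero ht.2
            show (0 : ℤ) < (m1 t : ℤ)
            exact_mod_cast this
        · intro hts
          rw [Set.mem_singleton_iff] at hts
          have h2 : bad x0 (fun s => ((m2 s0 : ℕ) : ℤ) * m1 s - (m1 s0 : ℕ) * m2 s) s0 := by
            rw [← mem_B (hω (m1 s0) (m2 s0)), ← hts, mem_B (hω (m1 s0) (m2 s0))]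
            exact hQ
          rcases h2 with h | ⟨h, h'⟩
          · simp only at h
            have : (m2 s0 : ℤ) * m1 s0 - m1 s0 * m2 s0 = 0 := by ring
            linarith
          · simp only at h
            have : (m2 s0 : ℤ) * m1 s0 - m1 s0 * m2 s0 = 0 := by ring
            linarith
    have hmem : Quotient.mk (St x0) s0 ∈ B x0 (fun s => (m1 s : ℤ)) := by
      rw [mem_B hω1]
      right
      refine ⟨?_, hs1.1⟩
      have := Nat.pos_of_ne_zero hs1.2
      show (0 : ℤ) < (m1 s0 : ℤ)
      exact_mod_cast this
    have h5 := Set.encard_le_encard hsub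
    have h6 := Set.encard_sdiff_singleton_add_one hmem
    rw [h1] at h5
    rw [hn] at h6
    have h7 : ((n + 1 : ℕ) : ℕ∞) ≤ n := by
      rw [← h6]
      push_cast
      gcongr
    have h8 : n + 1 ≤ n := by exact_mod_cast h7
    omega

end Pool.Agent.Q166.IX
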